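import Mathlib
import Pool.Agent.V1130.RelStr

/-!
A relational Fraisse structure with strong amalgamation without any structurally sharply
2-transitive action: the generic structure in which every 4-element subset has a distinguished
point.
-/

namespace Pool.Agent.Results.MP_d71e54_al.NoSharpTwo

set_option linter.constructorNameAsVariable false
set_option linter.unusedVariables false

open FirstOrder Language Structure CategoryTheory
open Pool.Agent.V1130.RelStr

universe u v w

/-- `G` acts on the structure `M` by automorphisms (all function and relation symbols are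
preserved). -/
def ActsByAutomorphisms (L : FirstOrder.Language.{u, v}) (M : Type w) [L.Structure M]
    (G : Type*) [Group G] [MulAction G M] : Prop :=
  ∀ g : G, (∀ (n : ℕ) (F : L.Functions n) (x : Fin n → M),
      funMap F (fun i => g • x i) = g • funMap F x) ∧
    (∀ (n : ℕ) (R : L.Relations n) (x : Fin n → M),
      RelMap R (fun i => g • x i) ↔ RelMap R x)

/-- The coordinatewise map `a i ↦ b i` is an isomorphism of the induced (relational)
substructures; used for tuples of pairwise distinct elements. -/
def SameType (L : FirstOrder.Language.{u, v}) {M : Type w} [L.Structure M] {k : ℕ}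
    (a b : Fin k → M) : Prop :=
  ∀ (n : ℕ) (R : L.Relations n) (x : Fin n → Fin k),
    RelMap R (fun i => a (x i)) ↔ RelMap R (fun i => b (x i))

/-- The action of `G` on `M` is structurally sharply `k`-transitive. -/
def StructurallySharplyTransitive (L : FirstOrder.Language.{u, v}) (M : Type w) [L.Structure M]
    (G : Type*) [Group G] [MulAction G M] (k : ℕ) : Prop :=
  ActsByAutomorphisms L M G ∧
    ∀ a b : Fin k → M, Function.Injective a → Function.Injective b → SameType L a b →
      ∃! g : G, ∀ i, g • a i = b i

/-! ### The language and the structure -/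

/-- Relation symbols: a single 4-ary one. -/
inductive Rel4 : ℕ → Type
  | R : Rel4 4

/-- The language with a single 4-ary relation symbol. -/
def L4 : FirstOrder.Language.{0, 0} := ⟨fun _ => Empty, Rel4⟩

instance : L4.IsRelational := fun _ => (inferInstance : IsEmpty Empty)

/-- the countable type of codes -/
abbrev Code := Finset ℕ →₀ ℕ

instance : Countable Code := by
  classical
  infer_instance

theorem exists_enum : ∃ e : ℕ → Code, ∀ τ : Code, ∀ m : ℕ, ∃ n, m < n ∧ e n = τ := by
  obtain ⟨f, hf⟩ := exists_surjective_nat Code
  refine ⟨fun n => f n.unpair.1, fun τ m => ?_⟩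
  obtain ⟨k, rfl⟩ := hf τ
  refine ⟨Nat.pair k (m + 1), ?_, by simp⟩
  exact lt_of_lt_of_le (Nat.lt_succ_self m) (Nat.right_le_pair k (m + 1))

/-- enumeration of codes with infinite fibres -/
noncomputable def enum : ℕ → Code := exists_enum.choose

theorem enum_spec : ∀ τ : Code, ∀ m : ℕ, ∃ n, m < n ∧ enum n = τ := exists_enum.choose_spec

/-- The distinguished point of a finite set. -/
noncomputable def pt (s : Finset ℕ) : ℕ :=
  if enum (s.sup id) (s.erase (s.sup id)) ∈ s.erase (s.sup id) then
    enum (s.sup id) (s.erase (s.sup id)) else s.sup id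

theorem sup_insert_of_lt {t : Finset ℕ} {y : ℕ} (h : ∀ b ∈ t, b < y) :
    (insert y t).sup id = y := by
  rw [Finset.sup_insert]
  simp only [id]
  apply sup_of_le_left
  exact Finset.sup_le fun b hb => (h b hb).le

theorem pt_insert {t : Finset ℕ} {y : ℕ} (h : ∀ b ∈ t, b < y) :
    pt (insert y t) = if enum y t ∈ t then enum y t else y := by
  have hy : y ∉ t := fun hy => lt_irrefl _ (h y hy)
  unfold pt
  rw [sup_insert_of_lt h, Finset.erase_insert hy]

theorem pt_mem {s : Finset ℕ} (hs : s.Nonempty) : pt s ∈ s := by
  unfold pt
  split_ifs with h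
  · exact Finset.mem_of_mem_erase h
  · obtain ⟨i, hi, h⟩ := Finset.exists_mem_eq_sup s hs id
    rw [h]; exact hi

/-- Realization of one point types. -/
theorem realize (B : Finset ℕ) (φ : Finset ℕ → ℕ) (m : ℕ) :
    ∃ y, m < y ∧ (∀ b ∈ B, b < y) ∧
      ∀ t, t ⊆ B → pt (insert y t) = if φ t ∈ t then φ t else y := by
  classical
  let τ : Code := Finsupp.onFinset B.powerset (fun t => if t ⊆ B then φ t else 0) (by
    intro t ht
    by_contra hc
    rw [Finset.mem_powerset] at hc
    simp [hc] at ht)
  obtain ⟨y, hy, hyτ⟩ := enum_spec τ (max m (B.sup id))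
  have hB : ∀ b ∈ B, b < y := fun b hb =>
    lt_of_le_of_lt ((Finset.le_sup (f := id) hb).trans (le_max_right _ _)) hy
  refine ⟨y, lt_of_le_of_lt (le_max_left _ _) hy, hB, fun t ht => ?_⟩
  rw [pt_insert (fun b hb => hB b (ht hb)), hyτ]
  have : τ t = φ t := by
    simp [τ, Finsupp.onFinset_apply, ht]
  rw [this]

/-- The set of values of a 4-tuple. -/
def vals {X : Type*} [DecidableEq X] (v : Fin 4 → X) : Finset X := Finset.univ.image v

/-- The structure. -/
noncomputable instance str : L4.Structure ℕ where
  funMap := fun {n} f => isEmptyElim f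
  RelMap := fun {n} R => match n, R with
    | 4, Rel4.R => fun v => Function.Injective v ∧ v 0 = pt (vals v)

theorem relMap_iff (v : Fin 4 → ℕ) :
    RelMap (L := L4) (M := ℕ) (Rel4.R : L4.Relations 4) v ↔
      Function.Injective v ∧ v 0 = pt (vals v) := Iff.rfl

/-- A 4-element set is the set of values of a 4-tuple starting at a given element. -/
theorem exists_tuple {s : Finset ℕ} (hs : s.card = 4) {x : ℕ} (hx : x ∈ s) :
    ∃ v : Fin 4 → ℕ, Function.Injective v ∧ v 0 = x ∧ vals v = s := by
  classical
  have hs' : (s.erase x).card = 3 := by rw [Finset.card_erase_of_mem hx, hs]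
  obtain ⟨a, b, c, hab, hac, hbc, habc⟩ := Finset.card_eq_three.1 hs'
  have hxn : x ∉ s.erase x := Finset.notMem_erase x s
  rw [habc] at hxn
  simp only [Finset.mem_insert, Finset.mem_singleton, not_or] at hxn
  refine ⟨![x, a, b, c], ?_, rfl, ?_⟩
  · intro i j hij
    fin_cases i <;> fin_cases j <;> simp_all
  · have : s = insert x (s.erase x) := (Finset.insert_erase hx).symm
    rw [this, habc]
    ext z
    simp [vals, Fin.exists_fin_succ, eq_comm]

/-- Partial isomorphisms are the injections preserving distinguished points. -/
theorem piso_iff (A : Finset ℕ) (f : ℕ → ℕ) :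
    PIso L4 A f ↔ Set.InjOn f (A : Set ℕ) ∧
      ∀ s ⊆ A, s.card = 4 → pt (s.image f) = f (pt s) := by
  constructor
  · intro h
    refine ⟨h.inj, fun s hs hs4 => ?_⟩
    have hne : s.Nonempty := by
      rw [← Finset.card_pos, hs4]; norm_num
    obtain ⟨v, hvi, hv0, hvs⟩ := exists_tuple hs4 (pt_mem hne)
    have hv : ∀ i, v i ∈ A := fun i => hs (hvs ▸ by simp [vals])
    have h1 := (h.rel (Rel4.R : L4.Relations 4) v hv).2 ((relMap_iff v).2 ⟨hvi, by rw [hv0, hvs]⟩)
    obtain ⟨-, h2⟩ := (relMap_iff _).1 h1
    have h3 : vals (f ∘ v) = s.image f := by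
      rw [← hvs]; simp [vals, Finset.image_image]
    rw [h3] at h2
    rw [← h2]; simp [hv0]
  · rintro ⟨hinj, hpt⟩
    refine ⟨hinj, ?_⟩
    intro n R v hv
    cases R
    rw [relMap_iff, relMap_iff]
    have hinj' : Function.Injective (f ∘ v) ↔ Function.Injective v := by
      constructor
      · intro h; exact h.of_comp
      · intro h i j hij
        exact h (hinj (hv i) (hv j) hij)
    rw [hinj']
    refine and_congr_right fun hvi => ?_
    have hsub : vals v ⊆ A := by
      intro x hx
      simp only [vals, Finset.mem_image, Finset.mem_univ, true_and] at hx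
      obtain ⟨i, rfl⟩ := hx
      exact hv i
    have hcard : (vals v).card = 4 := by
      rw [vals, Finset.card_image_of_injective _ hvi]; rfl
    have h3 : vals (f ∘ v) = (vals v).image f := by
      simp [vals, Finset.image_image]
    rw [h3, hpt _ hsub hcard]
    have hne : (vals v).Nonempty := by
      rw [← Finset.card_pos, hcard]; norm_num
    constructor
    · intro h; exact hinj (hv 0) (hsub (pt_mem hne)) h
    · intro h; exact congrArg f h

theorem extAvoid : ExtAvoid L4 ℕ := by
  classical
  intro A f hf x hx F
  rw [piso_iff] at hf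
  obtain ⟨hinj, hpt⟩ := hf
  -- the inverse of `f` on `A`
  let g : ℕ → ℕ := Function.invFunOn f (A : Set ℕ)
  have hg : ∀ a ∈ A, g (f a) = a := fun a ha => hinj.leftInvOn_invFunOn ha
  let φ : Finset ℕ → ℕ := fun t =>
    if pt (insert x (t.image g)) = x then t.sup id + 1 else f (pt (insert x (t.image g)))
  obtain ⟨y, hyF, hyB, hy⟩ := realize (A.image f) φ (F.sup id)
  refine ⟨y, fun hyF' => absurd (Finset.le_sup (f := id) hyF') (not_le.2 hyF), ?_⟩
  rw [piso_iff]
  have hupd : ∀ a ∈ A, Function.update f x y a = f a := by
    intro a ha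
    have hne : a ≠ x := by
      rintro rfl
      exact hx ha
    exact Function.update_of_ne hne _ _
  constructor
  · intro a ha b hb hab
    simp only [Finset.coe_insert, Set.mem_insert_iff, Finset.mem_coe] at ha hb
    rcases ha with rfl | ha <;> rcases hb with rfl | hb
    · rfl
    · rw [Function.update_self, hupd b hb] at hab
      exact absurd (hyB (f b) (Finset.mem_image_of_mem f hb)) (by rw [hab]; exact lt_irrefl _)
    · rw [Function.update_self, hupd a ha] at hab
      exact absurd (hyB (f a) (Finset.mem_image_of_mem f ha)) (by rw [hab]; exact lt_irrefl _)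
    · rw [hupd a ha, hupd b hb] at hab
      exact hinj ha hb hab
  · intro s hs hs4
    by_cases hxs : x ∈ s
    · -- new type
      set t := s.erase x with ht
      have hst : s = insert x t := (Finset.insert_erase hxs).symm
      have htA : t ⊆ A := by
        intro z hz
        rw [ht, Finset.mem_erase] at hz
        exact (Finset.mem_insert.1 (hs hz.2)).resolve_left hz.1
      have hxt : x ∉ t := Finset.notMem_erase x s
      have him : s.image (Function.update f x y) = insert y (t.image f) := by
        rw [hst, Finset.image_insert, Function.update_self]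
        congr 1
        exact Finset.image_congr fun a ha => hupd a (htA ha)
      have hback : (t.image f).image g = t := by
        rw [Finset.image_image]
        conv_rhs => rw [← Finset.image_id (s := t)]
        exact Finset.image_congr fun a ha => hg a (htA ha)
      rw [him, hy _ (Finset.image_subset_image htA)]
      have hφ : φ (t.image f) = if pt s = x then (t.image f).sup id + 1 else f (pt s) := by
        simp only [φ, hback, ← hst]
      rw [hφ]
      by_cases hps : pt s = x
      · rw [if_pos hps, hps, Function.update_self, if_neg]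
        intro hmem
        have hle := Finset.le_sup (f := id) hmem
        simp only [id] at hle
        omega
      · have hpt' : pt s ∈ t := by
          rw [ht, Finset.mem_erase]
          exact ⟨hps, pt_mem ⟨x, hxs⟩⟩
        rw [if_neg hps, if_pos (Finset.mem_image_of_mem f hpt'), hupd _ (htA hpt')]
    · have hsA : s ⊆ A := fun z hz =>
        (Finset.mem_insert.1 (hs hz)).resolve_left (fun h => hxs (h ▸ hz))
      have him : s.image (Function.update f x y) = s.image f :=
        Finset.image_congr fun a ha => hupd a (hsA ha)
      have hne : s.Nonempty := by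
        rw [← Finset.card_pos, hs4]; norm_num
      rw [him, hpt s hsA hs4, hupd _ (hsA (pt_mem hne))]

/-- For any two points there are two further points such that the distinguished point of the
four is one of the first two. -/
theorem exists_break {a b : ℕ} (hab : a ≠ b) :
    ∃ c d, c ≠ a ∧ c ≠ b ∧ d ≠ a ∧ d ≠ b ∧ c ≠ d ∧ pt {a, b, c, d} = a := by
  classical
  obtain ⟨c, hc⟩ : ∃ c, a < c ∧ b < c := ⟨max a b + 1, by omega⟩
  obtain ⟨d, -, hd, hd'⟩ := realize {a, b, c} (fun _ => a) 0
  have h1 := hd a (by simp)
  have h2 := hd b (by simp)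
  have h3 := hd c (by simp)
  have h4 := hd' {a, b, c} (le_refl _)
  refine ⟨c, d, by omega, by omega, by omega, by omega, by omega, ?_⟩
  rw [if_pos (by simp)] at h4
  have h5 : ({a, b, c, d} : Finset ℕ) = insert d {a, b, c} := by
    ext z
    simp only [Finset.mem_insert, Finset.mem_singleton]
    tauto
  rw [h5, h4]

/-- There is a relational Fraisse structure with strong amalgamation that admits no structurally
sharply 2-transitive action of any group. -/
theorem result :
    ∃ (L : FirstOrder.Language.{0, 0}) (_ : L.IsRelational) (M : Type) (_ : L.Structure M),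
      Countable M ∧ Infinite M ∧ L.IsUltrahomogeneous M ∧ StrongAmalgamation (L.age M) ∧
      ∀ (G : Type u) [Group G] [MulAction G M],
        ¬ StructurallySharplyTransitive L M G 2 := by
  classical
  refine ⟨L4, inferInstance, ℕ, str, inferInstance, inferInstance,
    isUltrahomogeneous_of_ext extAvoid, strongAmalgamation_of_ext extAvoid, ?_⟩
  intro G _ _ hG
  obtain ⟨haut, hsharp⟩ := hG
  -- the distinguished point is preserved by the action
  have hpt : ∀ (g : G) (s : Finset ℕ), s.card = 4 → pt (s.image (fun z => g • z)) = g • pt s := by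
    intro g s hs
    have : PIso L4 s (fun z : ℕ => g • z) :=
      ⟨fun a _ b _ h => MulAction.injective g h, fun {n} R v _ => (haut g).2 n R v⟩
    exact ((piso_iff s _).1 this).2 s (le_refl _) hs
  have hinj1 : Function.Injective ![(0 : ℕ), 1] := by
    intro i j hij; fin_cases i <;> fin_cases j <;> simp_all
  have hinj2 : Function.Injective ![(1 : ℕ), 0] := by
    intro i j hij; fin_cases i <;> fin_cases j <;> simp_all
  have hnorel : ∀ (a : Fin 2 → ℕ) (n : ℕ) (R : L4.Relations n) (x : Fin n → Fin 2),
      ¬ RelMap R (fun i => a (x i)) := by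
    intro a n R x h
    cases R
    obtain ⟨h1, -⟩ := (relMap_iff _).1 h
    have h2 : Function.Injective x := fun i j hij => h1 (by simp [hij])
    have := Fintype.card_le_of_injective x h2
    simp at this
  have htype : SameType L4 (M := ℕ) ![(0 : ℕ), 1] ![(1 : ℕ), 0] := by
    intro n R x
    exact ⟨fun h => absurd h (hnorel _ n R x), fun h => absurd h (hnorel _ n R x)⟩
  obtain ⟨g, hg, -⟩ := hsharp _ _ hinj1 hinj2 htype
  have hg0 : g • (0 : ℕ) = 1 := hg 0
  have hg1 : g • (1 : ℕ) = 0 := hg 1
  -- `g` is an involution
  have hgg : g * g = 1 := by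
    obtain ⟨h, -, hh⟩ := hsharp _ _ hinj1 hinj1 (fun n R x => Iff.rfl)
    rw [hh (g * g) (fun i => by fin_cases i <;> simp [mul_smul, hg0, hg1]),
      hh 1 (fun i => by simp)]
  have hgg' : ∀ z : ℕ, g • g • z = z := fun z => by rw [← mul_smul, hgg, one_smul]
  -- `g` fixes every other point
  have hfix : ∀ c : ℕ, c ≠ 0 → c ≠ 1 → g • c = c := by
    intro c hc0 hc1
    by_contra hc
    set d := g • c with hd
    have hd0 : d ≠ 0 := by
      intro h; apply hc1
      rw [← hgg' c, ← hd, h, hg0]
    have hd1 : d ≠ 1 := by
      intro h; apply hc0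
      rw [← hgg' c, ← hd, h, hg1]
    have hgd : g • d = c := by rw [hd, hgg']
    have hcard : ({0, 1, c, d} : Finset ℕ).card = 4 := by
      rw [Finset.card_insert_of_notMem (by simp; omega), Finset.card_insert_of_notMem (by simp; omega),
        Finset.card_insert_of_notMem (by simp; exact fun h => hc h.symm), Finset.card_singleton]
    have him : ({0, 1, c, d} : Finset ℕ).image (fun z => g • z) = {0, 1, c, d} := by
      ext z
      simp only [Finset.mem_image, Finset.mem_insert, Finset.mem_singleton]
      constructor
      · rintro ⟨y, (rfl | rfl | rfl | rfl), rfl⟩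
        · right; left; exact hg0
        · left; exact hg1
        · right; right; right; exact hd.symm
        · right; right; left; exact hgd
      · rintro (rfl | rfl | rfl | rfl)
        · exact ⟨1, by simp, hg1⟩
        · exact ⟨0, by simp, hg0⟩
        · exact ⟨d, by simp, hgd⟩
        · exact ⟨c, by simp, hd.symm⟩
    have h1 := hpt g _ hcard
    rw [him] at h1
    have hne : ({0, 1, c, d} : Finset ℕ).Nonempty := ⟨0, by simp⟩
    have h2 := pt_mem hne
    set p := pt {0, 1, c, d} with hp
    simp only [Finset.mem_insert, Finset.mem_singleton] at h2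
    rcases h2 with h2 | h2 | h2 | h2
    · rw [h2, hg0] at h1; exact absurd h1 (by norm_num)
    · rw [h2, hg1] at h1; exact absurd h1 (by norm_num)
    · rw [h2, ← hd] at h1; exact hc h1.symm
    · rw [h2, hgd] at h1; exact hc h1
  obtain ⟨c, d, hc0, hc1, hd0, hd1, hcd, hp⟩ := exists_break (a := 0) (b := 1) (by norm_num)
  have hcard : ({0, 1, c, d} : Finset ℕ).card = 4 := by
    rw [Finset.card_insert_of_notMem (by simp; omega), Finset.card_insert_of_notMem (by simp; omega),
      Finset.card_insert_of_notMem (by simpa using hcd), Finset.card_singleton]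
  have him : ({0, 1, c, d} : Finset ℕ).image (fun z => g • z) = {0, 1, c, d} := by
    rw [Finset.image_insert, Finset.image_insert, Finset.image_insert, Finset.image_singleton,
      hg0, hg1, hfix c hc0 hc1, hfix d hd0 hd1]
    ext z
    simp only [Finset.mem_insert, Finset.mem_singleton]
    tauto
  have h1 := hpt g _ hcard
  rw [him, hp, hg0] at h1
  exact absurd h1 (by norm_num)

end Pool.Agent.Results.MP_d71e54_al.NoSharpTwo
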